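import Pool.Agent.Helper31.BQ.Stmts2

/-! Row NA of sheet BQ (MP_04557e_an): no sequence in the closure of the finite rank operators of
the space `EE` tends to the identity. -/

set_option autoImplicit false

namespace Pool.Agent.Helper36.BQ

open Filter Topology
open Pool.Agent.Helper31.BQ

theorem NA_cont {H : Type} [NormedAddCommGroup H] [InnerProductSpace ℝ H] (w : H)
    (J : ℕ → H →L[ℝ] H) (σ : ∀ k, Fin (2 ^ k) → GG k → ℝ)
    (τ : ∀ k, Fin (2 ^ (k + 1)) → GG k → ℝ)
    (ξ : ∀ k, Fin (2 ^ (k + 1)) → EE J σ τ) (k : ℕ) :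
    Continuous fun R : EE J σ τ →L[ℝ] EE J σ τ => bt w J σ τ ξ k R := by
  unfold bt
  refine continuous_const.mul (continuous_finsetSum _ fun j _ => continuous_const.mul
    (continuous_finsetSum _ fun g _ => continuous_const.mul ?_))
  refine continuous_const.inner ((J k).continuous.comp ?_)
  unfold cd
  have h1 : Continuous fun R : EE J σ τ →L[ℝ] EE J σ τ => R (ξ k j) := by fun_prop
  have h2 : Continuous fun x : WW H => (x : ∀ k, GG k → H) :=
    lp.uniformContinuous_coe.continuous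
  have h3 := (continuous_apply k).comp (h2.comp (continuous_subtype_val.comp h1))
  exact (continuous_apply g).comp h3

theorem NA_norm {E : Type*} [NormedAddCommGroup E] [NormedSpace ℝ E] (c : ℝ) :
    Continuous fun Q : E →L[ℝ] E => ‖Q‖ * c := continuous_norm.mul continuous_const

/-- telescoping: a sequence tending to zero with differences at most `M * d l` -/
theorem NA_tele {b d : ℕ → ℝ} {M : ℝ} (hd : ∀ l, 0 ≤ d l) (hs : Summable d) (hM : 0 ≤ M)
    (hb : ∀ l, |b (l + 1) - b l| ≤ M * d l) (h0 : Tendsto b atTop (𝓝 0)) (k : ℕ) :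
    |b k| ≤ M * ∑' l, d (l + k) := by
  have hsk : Summable fun l => d (l + k) := (summable_nat_add_iff k).2 hs
  have h1 : ∀ n, |b k| ≤ |b (n + k)| + M * ∑ l ∈ Finset.range n, d (l + k) := by
    intro n
    induction n with
    | zero => simp
    | succ n ih =>
      rw [Finset.sum_range_succ, mul_add]
      have h2 := hb (n + k)
      have h3 : |b (n + k)| ≤ |b (n + k + 1)| + |b (n + k + 1) - b (n + k)| := by
        have := abs_sub_abs_le_abs_sub (b (n + k)) (b (n + k + 1))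
        rw [abs_sub_comm] at this
        linarith
      have e : n + 1 + k = n + k + 1 := by omega
      rw [e]
      linarith
  have h2 : ∀ n, |b k| ≤ |b (n + k)| + M * ∑' l, d (l + k) := by
    intro n
    have h3 : ∑ l ∈ Finset.range n, d (l + k) ≤ ∑' l, d (l + k) :=
      hsk.sum_le_tsum _ fun l _ => hd _
    have h4 := h1 n
    have h5 := mul_le_mul_of_nonneg_left h3 hM
    linarith
  have h3 : Tendsto (fun n => |b (n + k)| + M * ∑' l, d (l + k)) atTop
      (𝓝 (|0| + M * ∑' l, d (l + k))) :=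
    (((tendsto_add_atTop_iff_nat k).2 h0).abs).add tendsto_const_nhds
  have h4 := ge_of_tendsto' h3 h2
  rwa [abs_zero, zero_add] at h4

theorem st_NA (hEX : ST_EX) (hBD : ST_BD) (hBI : ST_BI) (hBF : ST_BF) : ST_NA := by
  intro H _ _ _ _ J e w S T hS σ τ δ hC hcs
  rintro ⟨R, hR, hlim⟩
  obtain ⟨ξ, hξ⟩ := hEX H J e w S T hS σ τ δ hC
  have hbd := hBD H J e w S T hS σ τ δ hC ξ hξ
  obtain ⟨-, hbi⟩ := hBI H J e w S T hS σ τ δ hC ξ hξ
  have hbf := hBF H J e w S T hS σ τ δ hC ξ hξ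
  obtain ⟨_, _, _, _, _, _, _, hδ, hsum⟩ := hC
  set d : ℕ → ℝ := fun k => ((k : ℝ) + 4) * δ k + 2 * (((k + 1 : ℕ) : ℝ) + 4) * δ (k + 1)
    with hd
  have hd0 : ∀ l, 0 ≤ d l := by
    intro l
    have h1 := hδ l
    have h2 := hδ (l + 1)
    rw [hd]
    positivity
  have hds : Summable d := by
    have h1 : Summable fun k : ℕ => (((k + 1 : ℕ) : ℝ) + 4) * δ (k + 1) :=
      (summable_nat_add_iff 1).2 hsum
    refine (hsum.add (h1.mul_left 2)).congr fun k => ?_
    rw [hd]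
    ring
  have hcl : ∀ k, ∀ Q ∈ closure (FR (EE J σ τ)),
      |bt w J σ τ ξ k Q| ≤ ‖Q‖ * ∑' l, d (l + k) := by
    intro k
    have hn : Continuous fun Q : EE J σ τ →L[ℝ] EE J σ τ => ‖Q‖ * ∑' l, d (l + k) :=
      NA_norm (E := EE J σ τ) _
    have hclosed : IsClosed {Q : EE J σ τ →L[ℝ] EE J σ τ |
        |bt w J σ τ ξ k Q| ≤ ‖Q‖ * ∑' l, d (l + k)} :=
      isClosed_le (NA_cont w J σ τ ξ k).abs hn
    have hsub : FR (EE J σ τ) ⊆ {Q : EE J σ τ →L[ℝ] EE J σ τ |
        |bt w J σ τ ξ k Q| ≤ ‖Q‖ * ∑' l, d (l + k)} := fun Q hQ =>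
      NA_tele (b := fun k => bt w J σ τ ξ k Q) hd0 hds (norm_nonneg Q) (fun l => hbd l Q)
        (hbf Q hQ) k
    intro Q hQ
    exact hclosed.closure_subset_iff.2 hsub hQ
  obtain ⟨M, hM⟩ : ∃ M, ∀ i, ‖R i‖ ≤ M := by
    refine banach_steinhaus fun x => ?_
    obtain ⟨C, hC⟩ := (hlim x).norm.bddAbove_range
    exact ⟨C, fun i => hC ⟨i, rfl⟩⟩
  have hk : ∀ k, 1 ≤ M * ∑' l, d (l + k) := by
    intro k
    have h1 : Tendsto (fun i => bt w J σ τ ξ k (R i)) atTop (𝓝 1) := hbi k R hlim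
    refine le_of_tendsto' h1 fun i => ?_
    have h2 := hcl k (R i) (hR i)
    have h3 : 0 ≤ ∑' l, d (l + k) := tsum_nonneg fun l => hd0 _
    exact (le_abs_self _).trans (h2.trans (mul_le_mul_of_nonneg_right (hM i) h3))
  have ht : Tendsto (fun k => M * ∑' l, d (l + k)) atTop (𝓝 (M * 0)) :=
    (tendsto_sum_nat_add d).const_mul M
  have h1 := ge_of_tendsto' ht hk
  rw [mul_zero] at h1
  linarith

end Pool.Agent.Helper36.BQ
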